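import Pool.Agent.Work.MP_849ab0_ag.G.F.Fin

namespace Pool.Agent.Results.MP_849ab0_ag.Geometric

open Pool.Agent.Work.MP_849ab0_ag.G

theorem result {k n : ℕ} {E κ : Type} [Fintype E] [Fintype κ] [DecidableEq κ]
    (D : Qd (Fin k) (Fin n) E) (F : D.Fl κ) (ν : Fin k → ℤ) (hν : D.Reg ν) :
    Function.Bijective (F.dsc ν) ∧
      ∃ (A : Type) (_ : Ring A) (ι : F.Io A) (Φ : A → F.HM ν), F.IsBFN ι ∧ F.IsHik ι ν Φ :=
  F.goal hν

end Pool.Agent.Results.MP_849ab0_ag.Geometric
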